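import Pool.Agent.Leo3.Stmts

/-!
# Squad leo3, module FRM

A cubic form with Hessian of discriminant `-4m` from a prime above 2, if the class number is prime
to 3.
-/

set_option autoImplicit false

open NumberField Module

namespace Pool.Agent.Leo3.H43

/-- Two different primes times cubes are different. -/
lemma prime_mul_cube_ne {R : Type} [CommRing R] [IsDedekindDomain R] {P P' A B : Ideal R}
    (hP : Prime P) (hP' : Prime P') (hne : P ≠ P') (hA : A ≠ 0) (hB : B ≠ 0) :
    P * A ^ 3 ≠ P' * B ^ 3 := by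
  classical
  intro h
  have h1 := congrArg (fun I => Multiset.count P (UniqueFactorizationMonoid.normalizedFactors I)) h
  simp only [UniqueFactorizationMonoid.normalizedFactors_mul hP.ne_zero (pow_ne_zero 3 hA),
    UniqueFactorizationMonoid.normalizedFactors_mul hP'.ne_zero (pow_ne_zero 3 hB),
    UniqueFactorizationMonoid.normalizedFactors_pow,
    UniqueFactorizationMonoid.normalizedFactors_irreducible hP.irreducible,
    UniqueFactorizationMonoid.normalizedFactors_irreducible hP'.irreducible,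
    Multiset.count_add, Multiset.count_nsmul, normalize_eq, Multiset.count_singleton_self,
    Multiset.count_singleton, if_neg hne] at h1
  omega

/-- **FRM** -/
theorem frm (hQua : QuaStmt) (hCub : CubStmt) : FrmStmt := by
  intro F _ _ m s hdeg hs hsq hm hcl
  have hm4 : m % 4 = 3 := by omega
  obtain ⟨c, hcs, hint, hsub, hnorm, hbas⟩ := hQua F m s hdeg hs hsq hm4
  have hs0 : s ≠ 0 := by
    rintro rfl
    have : (m : F) = 0 := by
      have h := hs
      rw [zero_pow two_ne_zero] at h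
      exact neg_eq_zero.1 h.symm
    have : m = 0 := by exact_mod_cast this
    omega
  let e : 𝓞 F ≃+* 𝓞 F := RingOfIntegers.mapRingEquiv (c : F ≃+* F)
  have he : ∀ x : 𝓞 F, ((e x : 𝓞 F) : F) = c x := fun x => rfl
  obtain ⟨q, hq⟩ : ∃ q : ℕ, m = 8 * q + 7 := ⟨m / 8, by omega⟩
  have hωi : IsIntegral ℤ ((1 + s) / 2 : F) := by
    refine ⟨Polynomial.X ^ 2 + (-Polynomial.X + Polynomial.C (2 * q + 2 : ℤ)), ?_, ?_⟩
    · refine Polynomial.monic_X_pow_add ?_
      refine lt_of_le_of_lt (Polynomial.degree_add_le _ _) (max_lt ?_ ?_)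
      · rw [Polynomial.degree_neg, Polynomial.degree_X]
        exact_mod_cast one_lt_two
      · exact lt_of_le_of_lt Polynomial.degree_C_le (by exact_mod_cast two_pos)
    · have hs' : s ^ 2 = -(8 * (q : F) + 7) := by
        rw [hs, hq]
        push_cast
        ring
      rw [Polynomial.eval₂_add, Polynomial.eval₂_add, Polynomial.eval₂_neg, Polynomial.eval₂_X_pow,
        Polynomial.eval₂_X, Polynomial.eval₂_C, eq_intCast]
      push_cast
      field_simp
      linear_combination hs'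
  let ω : 𝓞 F := ⟨(1 + s) / 2, hωi⟩
  have hω : ((ω : 𝓞 F) : F) = (1 + s) / 2 := rfl
  have heω : e ω = 1 - ω := by
    apply RingOfIntegers.ext
    rw [he]
    change c ((1 + s) / 2) = ((1 - ω : 𝓞 F) : F)
    have h1 : ((1 - ω : 𝓞 F) : F) = 1 - (1 + s) / 2 := by
      change algebraMap (𝓞 F) F (1 - ω) = _
      rw [map_sub, map_one]
      rfl
    rw [h1, map_div₀, map_add, map_one, hcs, map_ofNat]
    ring
  have heω' : e (1 - ω) = ω := by rw [map_sub, map_one, heω, sub_sub_cancel]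
  have hωω : ω * (1 - ω) = 2 * ((q : 𝓞 F) + 1) := by
    apply RingOfIntegers.ext
    have hs' : s ^ 2 = -(8 * (q : F) + 7) := by
      rw [hs, hq]
      push_cast
      ring
    simp only [map_mul, map_sub, map_one, map_add, map_natCast, map_ofNat, hω]
    field_simp
    linear_combination -hs'
  -- the primes above 2
  let P : Ideal (𝓞 F) := Ideal.span {2, ω}
  let P' : Ideal (𝓞 F) := Ideal.span {2, 1 - ω}
  have hmapP : P.map e = P' := by
    change (Ideal.span {2, ω}).map e = _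
    rw [Ideal.map_span, Set.image_pair, map_ofNat, heω]
  have hmapP' : P'.map e = P := by
    change (Ideal.span {2, 1 - ω}).map e = _
    rw [Ideal.map_span, Set.image_pair, map_ofNat, heω']
  have hPP : P * P' = Ideal.span {2} := by
    change Ideal.span {2, ω} * Ideal.span {2, 1 - ω} = _
    rw [Ideal.span_pair_mul_span_pair]
    apply le_antisymm
    · rw [Ideal.span_le]
      intro x hx
      simp only [Set.mem_insert_iff, Set.mem_singleton_iff] at hx
      rw [SetLike.mem_coe, Ideal.mem_span_singleton]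
      rcases hx with rfl | rfl | rfl | rfl
      · exact dvd_mul_right _ _
      · exact dvd_mul_right _ _
      · exact dvd_mul_left _ _
      · rw [hωω]
        exact dvd_mul_right _ _
    · rw [Ideal.span_singleton_le_iff_mem]
      have h1 : (2 : 𝓞 F) * (1 - ω) ∈ Ideal.span {2 * 2, 2 * (1 - ω), ω * 2, ω * (1 - ω)} :=
        Ideal.subset_span (by simp)
      have h2 : ω * 2 ∈ Ideal.span {2 * 2, 2 * (1 - ω), ω * 2, ω * (1 - ω)} :=
        Ideal.subset_span (by simp)
      have h3 := Ideal.add_mem _ h1 h2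
      have h4 : (2 : 𝓞 F) * (1 - ω) + ω * 2 = 2 := by ring
      rwa [h4] at h3
  have hN2 : Ideal.absNorm (Ideal.span {(2 : 𝓞 F)}) = 4 := by
    have h := hnorm 2
    have h2 : (((2 : 𝓞 F) : F)) = 2 := map_ofNat _ 2
    rw [h2, map_ofNat] at h
    have h3 : ((4 : ℕ) : F) = (Ideal.absNorm (Ideal.span {(2 : 𝓞 F)}) : ℕ) := by
      rw [← h]
      norm_num
    exact (Nat.cast_injective h3).symm
  have hNPP : Ideal.absNorm P * Ideal.absNorm P' = 4 := by rw [← map_mul, hPP, hN2]
  have hPtop : P ≠ ⊤ := by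
    intro h
    have h' : P' = ⊤ := by rw [← hmapP, h, Ideal.map_top]
    rw [h, h'] at hNPP
    simp at hNPP
  have hP'top : P' ≠ ⊤ := by
    intro h
    apply hPtop
    rw [← hmapP', h, Ideal.map_top]
  have hNP1 : Ideal.absNorm P ≠ 1 := fun h => hPtop (Ideal.absNorm_eq_one_iff.1 h)
  have hNP'1 : Ideal.absNorm P' ≠ 1 := fun h => hP'top (Ideal.absNorm_eq_one_iff.1 h)
  have hNP : Ideal.absNorm P = 2 ∧ Ideal.absNorm P' = 2 := by
    generalize Ideal.absNorm P = x at *
    generalize Ideal.absNorm P' = y at *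
    have hx : x ≤ 4 := by
      rcases Nat.eq_zero_or_pos y with h | h
      · rw [h] at hNPP
        omega
      · calc x = x * 1 := (mul_one x).symm
          _ ≤ x * y := Nat.mul_le_mul_left x h
          _ = 4 := hNPP
    interval_cases x <;> omega
  have hPirr : Irreducible (Ideal.absNorm P) := by
    rw [hNP.1]
    exact Nat.prime_two
  have hP'irr : Irreducible (Ideal.absNorm P') := by
    rw [hNP.2]
    exact Nat.prime_two
  have hP0 : P ≠ ⊥ := by
    intro h
    have := hNP.1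
    rw [h, Ideal.absNorm_bot] at this
    omega
  have hP'0 : P' ≠ ⊥ := by
    intro h
    have := hNP.2
    rw [h, Ideal.absNorm_bot] at this
    omega
  have hPp : Prime P := Ideal.prime_of_isPrime hP0 (Ideal.isPrime_of_irreducible_absNorm hPirr)
  have hP'p : Prime P' :=
    Ideal.prime_of_isPrime hP'0 (Ideal.isPrime_of_irreducible_absNorm hP'irr)
  have h2P : (2 : 𝓞 F) ∈ P := Ideal.subset_span (by simp)
  have hωP : ω ∈ P := Ideal.subset_span (by simp)
  have hne : P ≠ P' := by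
    intro h
    have h1 : (1 - ω) ∈ P := by
      rw [h]
      exact Ideal.subset_span (by simp)
    have h2 := Ideal.add_mem _ h1 hωP
    rw [sub_add_cancel] at h2
    exact hPtop ((Ideal.eq_top_iff_one _).2 h2)
  -- the class group
  have hco : (Nat.card (ClassGroup (𝓞 F))).Coprime 3 := by
    rw [Nat.card_eq_fintype_card]
    exact ((Nat.Prime.coprime_iff_not_dvd Nat.prime_three).2 hcl).symm
  have hPnz : P ∈ nonZeroDivisors (Ideal (𝓞 F)) := mem_nonZeroDivisors_of_ne_zero hP0
  obtain ⟨g, hg⟩ := (powCoprime hco).surjective (ClassGroup.mk0 ⟨P, hPnz⟩)⁻¹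
  rw [powCoprime_apply] at hg
  obtain ⟨I, rfl⟩ := ClassGroup.mk0_surjective g
  have hI0 : (I : Ideal (𝓞 F)) ≠ ⊥ := nonZeroDivisors.coe_ne_zero I
  have hprin : (P * (I : Ideal (𝓞 F)) ^ 3).IsPrincipal := by
    have hmem : P * (I : Ideal (𝓞 F)) ^ 3 ∈ nonZeroDivisors (Ideal (𝓞 F)) :=
      mul_mem hPnz (pow_mem I.2 3)
    rw [← ClassGroup.mk0_eq_one_iff hmem]
    have h1 : (⟨P * (I : Ideal (𝓞 F)) ^ 3, hmem⟩ : nonZeroDivisors (Ideal (𝓞 F))) =
        ⟨P, hPnz⟩ * I ^ 3 := Subtype.ext rfl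
    rw [h1, map_mul, map_pow, hg, mul_inv_cancel]
  obtain ⟨β, hβ⟩ := (Submodule.isPrincipal_iff _).1 hprin
  have hβ' : P * (I : Ideal (𝓞 F)) ^ 3 = Ideal.span {β} := hβ
  have hPI0 : P * (I : Ideal (𝓞 F)) ^ 3 ≠ 0 := mul_ne_zero hP0 (pow_ne_zero 3 hI0)
  have hβ0 : β ≠ 0 := by
    rintro rfl
    apply hPI0
    rw [hβ', Ideal.span_singleton_eq_bot.2 rfl]
    rfl
  have hNβ : (β : F) * c β = (2 : ℕ) * (Ideal.absNorm (I : Ideal (𝓞 F)) : ℕ) ^ 3 := by
    rw [hnorm β, ← hβ', map_mul, map_pow, hNP.1]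
    push_cast
    ring
  obtain ⟨u, v, hu, hv, -, -, hor, -⟩ := hbas I hI0
  have hdiv : ∀ x ∈ (I : Ideal (𝓞 F)) ^ 3, β ∣ ((2 : ℕ) : 𝓞 F) * x := by
    intro x hx
    rw [← Ideal.mem_span_singleton, ← hβ']
    refine Ideal.mul_mem_mul ?_ hx
    exact_mod_cast h2P
  obtain ⟨a₀, a₁, a₂, a₃, hform, -, hM⟩ := hCub F m s hdeg hs hsq hm4 c hcs hsub I u v β 2
    two_ne_zero hβ0 hu hv hor hdiv hNβ
  refine ⟨a₀, a₁, a₂, a₃, ?_, ?_⟩
  swap
  · rw [hM]
    norm_num
  intro x y hxy
  have hF := hform x y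
  rw [hxy, Int.cast_zero, zero_mul] at hF
  set w : 𝓞 F := (x : 𝓞 F) * u + (y : 𝓞 F) * v with hw
  have hwF : ((w : 𝓞 F) : F) = x * u + y * v := by
    change algebraMap (𝓞 F) F ((x : 𝓞 F) * u + (y : 𝓞 F) * v) = _
    rw [map_add, map_mul, map_mul, map_intCast, map_intCast]
  have hwI : w ∈ (I : Ideal (𝓞 F)) :=
    Ideal.add_mem _ (Ideal.mul_mem_left _ _ hu) (Ideal.mul_mem_left _ _ hv)
  obtain ⟨k₀, hk₀⟩ := hdiv (w ^ 3) (Ideal.pow_mem_pow hwI 3)
  have hβF : ((β : 𝓞 F) : F) ≠ 0 := fun h => hβ0 (RingOfIntegers.ext (h.trans (map_zero _).symm))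
  have hk₀F : ((2 : ℕ) : F) * (x * u + y * v) ^ 3 / β = k₀ := by
    rw [div_eq_iff hβF, ← hwF]
    have h := congrArg (algebraMap (𝓞 F) F) hk₀
    rw [map_mul, map_pow, map_natCast, map_mul] at h
    exact h.trans (mul_comm _ _)
  rw [hk₀F] at hF
  obtain ⟨k, hk⟩ := hint k₀ (by
    have := sub_eq_zero.1 hF.symm
    exact this.symm)
  have hk' : k₀ = (k : 𝓞 F) := RingOfIntegers.ext (hk.trans (map_intCast (algebraMap (𝓞 F) F) k).symm)
  rw [hk'] at hk₀
  -- `w = 0`
  have hw0 : w = 0 := by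
    by_contra hw0
    obtain ⟨J, hJ⟩ : (I : Ideal (𝓞 F)) ∣ Ideal.span {w} := by
      rw [Ideal.dvd_iff_le, Ideal.span_singleton_le_iff_mem]
      exact hwI
    have hkne : (k : 𝓞 F) ≠ 0 := by
      intro h0
      rw [h0, mul_zero] at hk₀
      have h2 : ((2 : ℕ) : 𝓞 F) ≠ 0 := Nat.cast_ne_zero.2 two_ne_zero
      exact mul_ne_zero h2 (pow_ne_zero 3 hw0) hk₀
    have h1 : (P * (I : Ideal (𝓞 F)) ^ 3) * (P' * J ^ 3) =
        (P * (I : Ideal (𝓞 F)) ^ 3) * Ideal.span {(k : 𝓞 F)} := by
      calc (P * (I : Ideal (𝓞 F)) ^ 3) * (P' * J ^ 3) = (P * P') * ((I : Ideal (𝓞 F)) * J) ^ 3 := by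
            ring
        _ = Ideal.span {2} * (Ideal.span {w}) ^ 3 := by rw [hPP, ← hJ]
        _ = Ideal.span {((2 : ℕ) : 𝓞 F) * w ^ 3} := by
            rw [Ideal.span_singleton_pow, Ideal.span_singleton_mul_span_singleton]
            norm_num
        _ = Ideal.span {β} * Ideal.span {(k : 𝓞 F)} := by
            rw [hk₀, Ideal.span_singleton_mul_span_singleton]
        _ = _ := by rw [hβ']
    have h2 : P' * J ^ 3 = Ideal.span {(k : 𝓞 F)} := mul_left_cancel₀ hPI0 h1
    have h3 : P * (J.map e) ^ 3 = Ideal.span {(k : 𝓞 F)} := by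
      have h := congrArg (Ideal.map e) h2
      rw [Ideal.map_mul, Ideal.map_pow, hmapP', Ideal.map_span, Set.image_singleton,
        map_intCast] at h
      exact h
    have hspan : Ideal.span {(k : 𝓞 F)} ≠ 0 := by
      intro h
      exact hkne (Ideal.span_singleton_eq_bot.1 h)
    have hJ0 : J ≠ 0 := by
      rintro rfl
      rw [zero_pow three_ne_zero, mul_zero] at h2
      exact hspan h2.symm
    have hJe0 : J.map e ≠ 0 := by
      intro h
      rw [h, zero_pow three_ne_zero, mul_zero] at h3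
      exact hspan h3.symm
    exact prime_mul_cube_ne hPp hP'p hne hJe0 hJ0 (h3.trans h2.symm)
  have hz : (x : F) * u + y * v = 0 := by
    rw [← hwF, hw0]
    exact map_zero _
  have hz' : (x : F) * c u + y * c v = 0 := by
    have h := congrArg c hz
    rwa [map_add, map_mul, map_mul, map_intCast, map_intCast, map_zero] at h
  have hNI : ((Ideal.absNorm (I : Ideal (𝓞 F)) : ℕ) : F) * s ≠ 0 := by
    refine mul_ne_zero ?_ hs0
    have : Ideal.absNorm (I : Ideal (𝓞 F)) ≠ 0 := fun h => hI0 (Ideal.absNorm_eq_zero_iff.1 h)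
    exact_mod_cast this
  constructor
  · have h : (x : F) * ((Ideal.absNorm (I : Ideal (𝓞 F)) : ℕ) * s) = 0 := by
      rw [← hor]
      linear_combination (c v) * hz - (v : F) * hz'
    rcases mul_eq_zero.1 h with h | h
    · exact_mod_cast h
    · exact absurd h hNI
  · have h : (y : F) * ((Ideal.absNorm (I : Ideal (𝓞 F)) : ℕ) * s) = 0 := by
      rw [← hor]
      linear_combination (u : F) * hz' - (c u) * hz
    rcases mul_eq_zero.1 h with h | h
    · exact_mod_cast h
    · exact absurd h hNI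

end Pool.Agent.Leo3.H43
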