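import Pool.Agent.Leo3.Stmts

/-!
# Squad leo3, module SUP

Sums of a unimodal function over an arithmetic progression.
-/

set_option autoImplicit false

open MeasureTheory intervalIntegral

namespace Pool.Agent.Leo3.H43

/-- Unimodal sum lemma. -/
lemma unimodal_sum (f : ℝ → ℝ) (hc : Continuous f) (T M x₀ δ : ℝ) (k : ℕ) (hδ : 0 < δ)
    (hx₀ : 0 ≤ x₀) (hk : x₀ + δ * k ≤ T) (hM0 : 0 ≤ M) (hMT : M ≤ T)
    (hmono : ∀ x y, 0 ≤ x → x ≤ y → y ≤ M → f x ≤ f y)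
    (hanti : ∀ x y, M ≤ x → x ≤ y → y ≤ T → f y ≤ f x)
    (hpos : ∀ x, 0 ≤ x → x ≤ T → 0 ≤ f x) :
    ∑ i ∈ Finset.range (k + 1), f (x₀ + δ * i) ≤ 1 / δ * (∫ x in (0 : ℝ)..T, f x) + f M := by
  set g₁ : ℝ → ℝ := fun y => f (min (x₀ + δ * y) M) with hg₁
  set g₂ : ℝ → ℝ := fun y => f (max (x₀ + δ * y) M) with hg₂
  have hrange : ∀ y : ℝ, y ∈ Set.Icc (0 : ℝ) (0 + (k : ℕ)) → 0 ≤ x₀ + δ * y ∧ x₀ + δ * y ≤ T := by
    intro y hy
    rw [zero_add] at hy
    refine ⟨by have := mul_nonneg hδ.le hy.1; linarith, ?_⟩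
    have := mul_le_mul_of_nonneg_left hy.2 hδ.le
    linarith
  have h1 : MonotoneOn g₁ (Set.Icc (0 : ℝ) (0 + (k : ℕ))) := by
    intro y hy z hz hyz
    have := mul_le_mul_of_nonneg_left hyz hδ.le
    exact hmono _ _ (le_min (hrange y hy).1 hM0) (min_le_min_right _ (by linarith))
      (min_le_right _ _)
  have h2 : AntitoneOn g₂ (Set.Icc (0 : ℝ) (0 + (k : ℕ))) := by
    intro y hy z hz hyz
    have := mul_le_mul_of_nonneg_left hyz hδ.le
    exact hanti _ _ (le_max_right _ _) (max_le_max_right _ (by linarith))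
      (max_le (hrange z hz).2 hMT)
  have e1 := h1.sum_le_integral
  have e2 := h2.sum_le_integral
  rw [zero_add] at e1 e2
  have hsum : ∀ y : ℝ, g₁ y + g₂ y = f (x₀ + δ * y) + f M := by
    intro y
    rcases le_total (x₀ + δ * y) M with h | h
    · simp only [hg₁, hg₂, min_eq_left h, max_eq_right h]
    · simp only [hg₁, hg₂, min_eq_right h, max_eq_left h]
      ring
  have hc1 : Continuous g₁ := by fun_prop
  have hc2 : Continuous g₂ := by fun_prop
  have hi : (∫ y in (0 : ℝ)..k, g₁ y) + (∫ y in (0 : ℝ)..k, g₂ y) =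
      1 / δ * (∫ x in x₀..(x₀ + δ * k), f x) + k * f M := by
    rw [← integral_add (hc1.intervalIntegrable _ _) (hc2.intervalIntegrable _ _)]
    rw [integral_congr (g := fun y => f (x₀ + δ * y) + f M) (fun y _ => hsum y)]
    have hc3 : Continuous fun y : ℝ => f (x₀ + δ * y) := by fun_prop
    rw [integral_add (hc3.intervalIntegrable _ _) (continuous_const.intervalIntegrable _ _)]
    rw [integral_comp_add_mul f hδ.ne' x₀, intervalIntegral.integral_const]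
    simp
  have hle : (∫ x in x₀..(x₀ + δ * k), f x) ≤ ∫ x in (0 : ℝ)..T, f x := by
    refine integral_mono_interval hx₀ (by have := mul_nonneg hδ.le (Nat.cast_nonneg (α := ℝ) k)
                                          linarith) hk ?_ (hc.intervalIntegrable _ _)
    refine (ae_restrict_iff' measurableSet_Ioc).2 (Filter.Eventually.of_forall fun x hx => ?_)
    exact hpos x hx.1.le hx.2
  have hk0 : (0 : ℝ) ∈ Set.Icc (0 : ℝ) (0 + (k : ℕ)) := ⟨le_rfl, by simp⟩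
  have hkk : (k : ℝ) ∈ Set.Icc (0 : ℝ) (0 + (k : ℕ)) := ⟨by simp, by simp⟩
  have hg1k : g₁ k ≤ f M := hmono _ _ (le_min (hrange _ hkk).1 hM0) (min_le_right _ _) le_rfl
  have hg20 : g₂ 0 ≤ f M := hanti _ _ le_rfl (le_max_right _ _) (max_le (hrange _ hk0).2 hMT)
  have hS : ∑ i ∈ Finset.range (k + 1), f (x₀ + δ * i) =
      (∑ i ∈ Finset.range k, g₁ (0 + i) + g₁ k) +
      (∑ i ∈ Finset.range k, g₂ (0 + (i + 1 : ℕ)) + g₂ 0) - (k + 1) * f M := by
    have a1 : ∑ i ∈ Finset.range (k + 1), g₁ (i : ℝ) = ∑ i ∈ Finset.range k, g₁ (0 + i) + g₁ k := by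
      rw [Finset.sum_range_succ]
      simp only [zero_add]
    have a2 : ∑ i ∈ Finset.range (k + 1), g₂ (i : ℝ) =
        ∑ i ∈ Finset.range k, g₂ (0 + (i + 1 : ℕ)) + g₂ 0 := by
      rw [Finset.sum_range_succ' (fun i : ℕ => g₂ (i : ℝ))]
      simp only [zero_add, Nat.cast_zero]
    have a3 : ∑ i ∈ Finset.range (k + 1), (g₁ (i : ℝ) + g₂ (i : ℝ)) =
        ∑ i ∈ Finset.range (k + 1), (f (x₀ + δ * i) + f M) :=
      Finset.sum_congr rfl fun i _ => hsum i
    rw [← a1, ← a2, ← Finset.sum_add_distrib, a3, Finset.sum_add_distrib, Finset.sum_const,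
      Finset.card_range, nsmul_eq_mul]
    push_cast
    ring
  have hδ' : 0 ≤ 1 / δ := by positivity
  have hle' := mul_le_mul_of_nonneg_left hle hδ'
  simp only [zero_add] at hS e1 e2
  rw [hS]
  nlinarith [e1, e2, hi, hle', hg1k, hg20]

/-- The monotonicity of `hh`. -/
lemma hh_mono (N a : ℝ) (x y : ℝ) (hx : 0 ≤ x) (hxy : x ≤ y) (hy : 4 * y ^ 3 ≤ a ^ 2 * N) :
    hh N a x ≤ hh N a y := by
  have hx3 : x ^ 3 ≤ y ^ 3 := pow_le_pow_left₀ hx hxy 3
  unfold hh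
  rw [Real.sqrt_eq_zero_of_nonpos (by linarith : 4 * x ^ 3 - a ^ 2 * N ≤ 0),
    Real.sqrt_eq_zero_of_nonpos (by linarith : 4 * y ^ 3 - a ^ 2 * N ≤ 0), sub_zero, sub_zero]
  rcases le_total (4 * x) (3 * a ^ 2) with h | h
  · rw [Real.sqrt_eq_zero_of_nonpos]
    · exact Real.sqrt_nonneg _
    · nlinarith [sq_nonneg x]
  · apply Real.sqrt_le_sqrt
    have h1 : x ^ 2 ≤ y ^ 2 := pow_le_pow_left₀ hx hxy 2
    have h2 : x ^ 2 * (4 * x - 3 * a ^ 2) ≤ y ^ 2 * (4 * y - 3 * a ^ 2) :=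
      mul_le_mul h1 (by linarith) (by linarith) (by positivity)
    linarith

/-- The other side. -/
lemma hh_anti (N a : ℝ) (x y : ℝ) (hx : 0 ≤ x) (hxy : x ≤ y) (hx3 : a ^ 2 * N ≤ 4 * x ^ 3)
    (hy2 : 3 * y ^ 2 ≤ N) : hh N a y ≤ hh N a x := by
  have h3 : x ^ 3 ≤ y ^ 3 := pow_le_pow_left₀ hx hxy 3
  have h2 : x ^ 2 ≤ y ^ 2 := pow_le_pow_left₀ hx hxy 2
  have ha : 0 ≤ a ^ 2 := sq_nonneg a
  have ha2 : a ^ 2 * (3 * y ^ 2) ≤ a ^ 2 * N := mul_le_mul_of_nonneg_left hy2 ha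
  have ha3 : a ^ 2 * (3 * x ^ 2) ≤ a ^ 2 * (3 * y ^ 2) :=
    mul_le_mul_of_nonneg_left (by linarith) ha
  have hy1 : 0 ≤ 4 * y ^ 3 - a ^ 2 * N := by linarith
  have hx1 : 0 ≤ 4 * x ^ 3 - a ^ 2 * N := by linarith
  have hyw : 4 * y ^ 3 - a ^ 2 * N ≤ 4 * y ^ 3 - 3 * a ^ 2 * y ^ 2 := by linarith
  have hxw : 4 * x ^ 3 - a ^ 2 * N ≤ 4 * x ^ 3 - 3 * a ^ 2 * x ^ 2 := by linarith
  have hmid : 4 * x ^ 3 - 3 * a ^ 2 * x ^ 2 ≤ 4 * y ^ 3 - 3 * a ^ 2 * y ^ 2 := by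
    rcases hx.eq_or_lt with h0 | h0
    · rw [← h0]
      have : 0 ≤ 4 * y ^ 3 - 3 * a ^ 2 * y ^ 2 := hy1.trans hyw
      simpa using this
    · have h4 : 3 * a ^ 2 ≤ 4 * x := by
        have : x ^ 2 * (3 * a ^ 2) ≤ x ^ 2 * (4 * x) := by nlinarith
        exact le_of_mul_le_mul_left this (by positivity)
      have h5 : x ^ 2 * (4 * x - 3 * a ^ 2) ≤ y ^ 2 * (4 * y - 3 * a ^ 2) :=
        mul_le_mul h2 (by linarith) (by linarith) (by positivity)
      linarith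
  unfold hh
  set w1y := Real.sqrt (4 * y ^ 3 - a ^ 2 * N) with e1
  set w2y := Real.sqrt (4 * y ^ 3 - 3 * a ^ 2 * y ^ 2) with e2
  set w1x := Real.sqrt (4 * x ^ 3 - a ^ 2 * N) with e3
  set w2x := Real.sqrt (4 * x ^ 3 - 3 * a ^ 2 * x ^ 2) with e4
  have s1 : w1y ^ 2 = 4 * y ^ 3 - a ^ 2 * N := Real.sq_sqrt hy1
  have s2 : w2y ^ 2 = 4 * y ^ 3 - 3 * a ^ 2 * y ^ 2 := Real.sq_sqrt (hy1.trans hyw)
  have s3 : w1x ^ 2 = 4 * x ^ 3 - a ^ 2 * N := Real.sq_sqrt hx1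
  have s4 : w2x ^ 2 = 4 * x ^ 3 - 3 * a ^ 2 * x ^ 2 := Real.sq_sqrt (hx1.trans hxw)
  have n1 : 0 ≤ w1y := Real.sqrt_nonneg _
  have n2 : 0 ≤ w2y := Real.sqrt_nonneg _
  have n3 : 0 ≤ w1x := Real.sqrt_nonneg _
  have m1 : w1x ≤ w1y := Real.sqrt_le_sqrt (by linarith)
  have m2 : w2x ≤ w2y := Real.sqrt_le_sqrt hmid
  have m3 : w1x ≤ w2x := Real.sqrt_le_sqrt hxw
  by_contra hcon
  push Not at hcon
  have p1 : 0 < w2y + w1y := by linarith
  have p2 : (w2x - w1x) * (w2y + w1y) < (w2y - w1y) * (w2y + w1y) :=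
    mul_lt_mul_of_pos_right hcon p1
  have p3 : (w2x - w1x) * (w2x + w1x) ≤ (w2x - w1x) * (w2y + w1y) :=
    mul_le_mul_of_nonneg_left (by linarith) (by linarith)
  nlinarith

/-- The supremum. -/
lemma hh_le (N a x : ℝ) (hN : 0 ≤ N) (ha : 0 ≤ a) : hh N a x ≤ a * Real.sqrt N := by
  unfold hh
  rw [sub_le_iff_le_add]
  have h0 : 0 ≤ a * Real.sqrt N := mul_nonneg ha (Real.sqrt_nonneg _)
  have h1 : 0 ≤ Real.sqrt (4 * x ^ 3 - a ^ 2 * N) := Real.sqrt_nonneg _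
  refine Real.sqrt_le_iff.2 ⟨by positivity, ?_⟩
  have h2 : 4 * x ^ 3 - a ^ 2 * N ≤ Real.sqrt (4 * x ^ 3 - a ^ 2 * N) ^ 2 := by
    rcases le_total 0 (4 * x ^ 3 - a ^ 2 * N) with h | h
    · rw [Real.sq_sqrt h]
    · exact h.trans (sq_nonneg _)
  have h3 : (a * Real.sqrt N) ^ 2 = a ^ 2 * N := by rw [mul_pow, Real.sq_sqrt hN]
  nlinarith [mul_nonneg h0 h1, sq_nonneg (a * x)]

/-- `hh` is nonnegative in the range. -/
lemma hh_nonneg (N a x : ℝ) (hx : 3 * x ^ 2 ≤ N) : 0 ≤ hh N a x := by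
  unfold hh
  refine sub_nonneg.2 (Real.sqrt_le_sqrt ?_)
  have := mul_le_mul_of_nonneg_left hx (sq_nonneg a)
  linarith

/-- **SUP** -/
theorem sup : SupStmt := by
  intro N a r ha
  have ha0 : (0 : ℝ) < a := by exact_mod_cast ha
  have hN : (0 : ℝ) ≤ N := Nat.cast_nonneg N
  set T : ℝ := Real.sqrt (N / 3) with hT
  have hT0 : 0 ≤ T := Real.sqrt_nonneg _
  have hT2 : T ^ 2 = N / 3 := Real.sq_sqrt (by positivity)
  have hcont : Continuous (hh N a) := by
    unfold hh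
    fun_prop
  have hleT : ∀ x : ℝ, 0 ≤ x → x ≤ T → 3 * x ^ 2 ≤ N := by
    intro x h0 hx
    have := pow_le_pow_left₀ h0 hx 2
    rw [hT2] at this
    linarith
  have hint : 0 ≤ ∫ P in (0 : ℝ)..T, hh N a P := by
    refine integral_nonneg hT0 fun x hx => hh_nonneg _ _ _ (hleT x hx.1 hx.2)
  have hδ : (0 : ℝ) < 6 * a := by positivity
  -- the maximum
  obtain ⟨M₀, hM00, hM03⟩ : ∃ M₀ : ℝ, 0 ≤ M₀ ∧ 4 * M₀ ^ 3 = a ^ 2 * N := by
    refine ⟨((a : ℝ) ^ 2 * N / 4) ^ (1 / 3 : ℝ), by positivity, ?_⟩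
    rw [← Real.rpow_natCast, ← Real.rpow_mul (by positivity)]
    norm_num
    ring
  set M : ℝ := min M₀ T with hM
  have hM0 : 0 ≤ M := le_min hM00 hT0
  -- the arithmetic progression
  set P₀ : ℕ := if r = 0 then 6 * a else r with hP₀
  have hP₀1 : 1 ≤ P₀ := by
    rw [hP₀]
    split_ifs with h
    · omega
    · omega
  set S := (Finset.range (N + 1)).filter (fun P => 1 ≤ P ∧ 3 * P ^ 2 ≤ N ∧ P % (6 * a) = r) with hS
  rcases S.eq_empty_or_nonempty with hemp | hne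
  · rw [hemp, Finset.sum_empty]
    have : 0 ≤ 1 / (6 * (a : ℝ)) * ∫ P in (0 : ℝ)..T, hh N a P := mul_nonneg (by positivity) hint
    have h2 : 0 ≤ (a : ℝ) * Real.sqrt N := by positivity
    linarith
  have hrep : ∀ P ∈ S, ∃ i : ℕ, P = P₀ + 6 * a * i := by
    intro P hP
    rw [hS, Finset.mem_filter] at hP
    obtain ⟨_, h1, _, h3⟩ := hP
    have h4 := Nat.div_add_mod P (6 * a)
    rw [h3] at h4
    rw [hP₀]
    split_ifs with h
    · refine ⟨P / (6 * a) - 1, ?_⟩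
      rw [h, add_zero] at h4
      have h5 : 1 ≤ P / (6 * a) := by
        rcases Nat.eq_zero_or_pos (P / (6 * a)) with h6 | h6
        · rw [h6] at h4
          omega
        · exact h6
      obtain ⟨j, hj⟩ := Nat.exists_eq_add_of_le h5
      rw [hj] at h4 ⊢
      rw [← h4]
      have : 1 + j - 1 = j := by omega
      rw [this]
      ring
    · exact ⟨P / (6 * a), by omega⟩
  -- the last point
  set Pm := S.max' hne with hPm
  have hPmS : Pm ∈ S := S.max'_mem hne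
  obtain ⟨k, hk⟩ := hrep Pm hPmS
  have hPm2 : 3 * Pm ^ 2 ≤ N := by
    rw [hS, Finset.mem_filter] at hPmS
    exact hPmS.2.2.1
  have hmod : (P₀ : ℕ) % (6 * a) = r := by
    have h3 : Pm % (6 * a) = r := by
      rw [hS, Finset.mem_filter] at hPmS
      exact hPmS.2.2.2
    rw [hk, Nat.add_mul_mod_self_left] at h3
    exact h3
  have hSeq : S = (Finset.range (k + 1)).image (fun i => P₀ + 6 * a * i) := by
    ext P
    constructor
    · intro hP
      obtain ⟨i, hi⟩ := hrep P hP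
      have hle : P ≤ Pm := S.le_max' P hP
      refine Finset.mem_image.2 ⟨i, ?_, hi.symm⟩
      rw [Finset.mem_range]
      rw [hi, hk] at hle
      have : 6 * a * i ≤ 6 * a * k := by omega
      have := Nat.le_of_mul_le_mul_left this (by omega)
      omega
    · intro hP
      obtain ⟨i, hi, rfl⟩ := Finset.mem_image.1 hP
      rw [Finset.mem_range] at hi
      have hle : P₀ + 6 * a * i ≤ Pm := by
        rw [hk]
        have : 6 * a * i ≤ 6 * a * k := Nat.mul_le_mul_left _ (by omega)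
        omega
      have h2 : 3 * (P₀ + 6 * a * i) ^ 2 ≤ N :=
        (Nat.mul_le_mul_left 3 (Nat.pow_le_pow_left hle 2)).trans hPm2
      rw [hS, Finset.mem_filter, Finset.mem_range]
      refine ⟨?_, by omega, h2, ?_⟩
      · nlinarith [Nat.zero_le (6 * a * i)]
      · rw [Nat.add_mul_mod_self_left]
        exact hmod
  have hinj : Set.InjOn (fun i : ℕ => P₀ + 6 * a * i) (Finset.range (k + 1) : Set ℕ) := by
    intro i _ j _ h
    have h' : P₀ + 6 * a * i = P₀ + 6 * a * j := h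
    have : 6 * a * i = 6 * a * j := by omega
    exact Nat.eq_of_mul_eq_mul_left (by omega) this
  rw [hSeq, Finset.sum_image hinj]
  have hlast : (P₀ : ℝ) + 6 * a * k ≤ T := by
    have h1 : (3 : ℝ) * (P₀ + 6 * a * k) ^ 2 ≤ N := by
      have h2 := hPm2
      rw [hk] at h2
      exact_mod_cast h2
    exact Real.le_sqrt_of_sq_le (by linarith)
  have key := unimodal_sum (hh N a) hcont T M P₀ (6 * a) k hδ (Nat.cast_nonneg _) hlast hM0
    (min_le_right _ _)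
    (fun x y hx hxy hy => hh_mono _ _ _ _ hx hxy (by
      have h1 : y ≤ M₀ := hy.trans (min_le_left _ _)
      have h2 := pow_le_pow_left₀ (hx.trans hxy) h1 3
      linarith))
    (fun x y hx hxy hy => by
      rcases le_total M₀ T with h | h
      · have hMM : M = M₀ := min_eq_left h
        rw [hMM] at hx
        have h2 := pow_le_pow_left₀ hM00 hx 3
        exact hh_anti _ _ _ _ (hM00.trans hx) hxy (by linarith)
          (hleT y ((hM00.trans hx).trans hxy) hy)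
      · have hMM : M = T := min_eq_right h
        rw [hMM] at hx
        have : x = y := le_antisymm hxy (hy.trans hx)
        rw [this])
    (fun x hx hxT => hh_nonneg _ _ _ (hleT x hx hxT))
  have hsup := hh_le N a M hN ha0.le
  have hcast : ∑ i ∈ Finset.range (k + 1), hh N a ((P₀ + 6 * a * i : ℕ) : ℝ) =
      ∑ i ∈ Finset.range (k + 1), hh N a (P₀ + 6 * a * i) := by
    refine Finset.sum_congr rfl fun i _ => ?_
    push_cast
    rfl
  rw [hcast]
  linarith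

end Pool.Agent.Leo3.H43
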